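import Pool.Agent.H40.ISH.Stmts

/-!
Project ISH, module FGR: the part of the interface in the box and the adjacent sites.
-/

set_option linter.unusedVariables false

namespace Pool.ISH

open MeasureTheory Filter Topology
open scoped Classical Pointwise

/-- the vertical bond in the column `(a, b)` between the heights 0 and 1 -/
def fgr_rb (a b : ℤ) : Bond := (![a, b, 0], 2)

theorem fgr_lo (a b : ℤ) : lo (fgr_rb a b) = ![a, b, 0] := rfl

theorem fgr_hi (a b : ℤ) : hi (fgr_rb a b) = ![a, b, 1] := by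
  funext j
  rw [hi_apply, fgr_lo]
  fin_cases j <;> simp [fgr_rb, ev]

theorem fgr_tch {a b a' b' : ℤ} (h1 : |a - a'| ≤ 1) (h2 : |b - b'| ≤ 1) :
    Tch (fgr_rb a b) (fgr_rb a' b') := by
  refine ⟨?_, ?_, ?_, ?_⟩ <;> intro j <;> simp only [fgr_lo, fgr_hi] <;> fin_cases j <;>
    simp [h1, h2]

/-- the set of broken bonds with both ends in the box or adjacent to it -/
def fgr_S (N : ℕ) (A : Finset Site) : Set Bond :=
  {c | c ∈ bd (Pl N A) ∧ lo c ∈ Vbar N ∧ hi c ∈ Vbar N}

/-- the ring condition -/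
def fgr_ring (N : ℕ) (a b : ℤ) : Prop :=
  (|a| = N + 1 ∧ |b| ≤ N) ∨ (|b| = N + 1 ∧ |a| ≤ N)

theorem fgr_notVb {N : ℕ} {x : Site} (h : (N : ℤ) < |x 0| ∨ (N : ℤ) < |x 1|) : x ∉ Vb N := by
  rw [mem_Vb]
  push Not
  rcases h with h | h
  · exact ⟨0, h⟩
  · exact ⟨1, h⟩

theorem fgr_mem_Vbar {N : ℕ} (hN : 1 ≤ N) {a b c : ℤ} (h : fgr_ring N a b) (hc : c = 0 ∨ c = 1) :
    (![a, b, c] : Site) ∈ Vbar N := by
  have hN' : (1 : ℤ) ≤ N := by exact_mod_cast hN
  have hc' : |c| ≤ N := by
    rcases hc with rfl | rfl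
    · simp
    · simpa using hN'
  right
  rcases h with ⟨h1, h2⟩ | ⟨h1, h2⟩
  · refine ⟨0, ?_⟩
    rcases (abs_eq (by omega : (0 : ℤ) ≤ N + 1)).1 h1 with h3 | h3
    · right
      rw [mem_Vb]
      intro j
      fin_cases j
      · simp [ev, h3]
      · simpa [ev] using h2
      · simpa [ev] using hc'
    · left
      rw [mem_Vb]
      intro j
      fin_cases j
      · simp only [Pi.add_apply, Fin.zero_eta, Matrix.cons_val_zero, ev_same, h3]
        rw [show -((N : ℤ) + 1) + 1 = -(N : ℤ) by ring, abs_neg]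
        simp
      · simpa [ev] using h2
      · simpa [ev] using hc'
  · refine ⟨1, ?_⟩
    rcases (abs_eq (by omega : (0 : ℤ) ≤ N + 1)).1 h1 with h3 | h3
    · right
      rw [mem_Vb]
      intro j
      fin_cases j
      · simpa [ev] using h2
      · simp [ev, h3]
      · simpa [ev] using hc'
    · left
      rw [mem_Vb]
      intro j
      fin_cases j
      · simpa [ev] using h2
      · simp only [Pi.add_apply, Fin.mk_one, Matrix.cons_val_one, ev_same, h3]
        simp
      · simpa [ev] using hc'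

theorem fgr_ring_mem {N : ℕ} (hN : 1 ≤ N) (A : Finset Site) {a b : ℤ} (h : fgr_ring N a b) :
    fgr_rb a b ∈ fgr_S N A := by
  refine ⟨?_, ?_, ?_⟩
  · have h1 : ∀ c : ℤ, (![a, b, c] : Site) ∉ Vb N := by
      intro c
      apply fgr_notVb
      simp only [Matrix.cons_val_zero, Matrix.cons_val_one]
      rcases h with ⟨h1, _⟩ | ⟨h1, _⟩
      · left; rw [h1]; omega
      · right; rw [h1]; omega
    rw [mem_bd, fgr_lo, fgr_hi]
    simp only [Pl, Set.mem_ofPred_eq, h1, false_and, not_false_eq_true, true_and, false_or]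
    simp
  · rw [fgr_lo]; exact fgr_mem_Vbar hN h (Or.inl rfl)
  · rw [fgr_hi]; exact fgr_mem_Vbar hN h (Or.inr rfl)

theorem fgr_path {S : Set Bond} (f : ℕ → Bond) (n : ℕ) (h1 : ∀ k < n, Tch (f k) (f (k + 1)))
    (h2 : ∀ k ≤ n, f k ∈ S) : ∀ k ≤ n, Rch S (f 0) (f k) := by
  intro k hk
  induction k with
  | zero => exact Relation.ReflTransGen.refl
  | succ k ih =>
    exact Relation.ReflTransGen.tail (ih (by omega)) ⟨h1 k (by omega), h2 _ hk⟩

theorem fgr_ring_conn {N : ℕ} (hN : 1 ≤ N) (A : Finset Site) {a b : ℤ} (h : fgr_ring N a b) :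
    Rch (fgr_S N A) (rt N) (fgr_rb a b) := by
  have hN' : (1 : ℤ) ≤ N := by exact_mod_cast hN
  have hrt : rt N = fgr_rb (N + 1) 0 := rfl
  rw [hrt]
  -- right side, upper half
  have hR1 : ∀ k ≤ N, Rch (fgr_S N A) (fgr_rb (N + 1) 0) (fgr_rb (N + 1) (k : ℤ)) := by
    intro k hk
    have := fgr_path (S := fgr_S N A) (fun k : ℕ => fgr_rb (N + 1) (k : ℤ)) N
      (fun k hk => fgr_tch (by simp) (by push_cast; rw [show (k : ℤ) - (k + 1) = -1 by ring]; simp))
      (fun k hk => fgr_ring_mem hN A (Or.inl ⟨abs_of_nonneg (by omega), by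
        rw [abs_of_nonneg (by omega)]; omega⟩)) k hk
    simpa using this
  have hR2 : ∀ k ≤ N, Rch (fgr_S N A) (fgr_rb (N + 1) 0) (fgr_rb (N + 1) (-(k : ℤ))) := by
    intro k hk
    have := fgr_path (S := fgr_S N A) (fun k : ℕ => fgr_rb (N + 1) (-(k : ℤ))) N
      (fun k hk => fgr_tch (by simp) (by
        push_cast; rw [show -(k : ℤ) - -((k : ℤ) + 1) = 1 by ring]; simp))
      (fun k hk => fgr_ring_mem hN A (Or.inl ⟨abs_of_nonneg (by omega), by
        rw [abs_neg, abs_of_nonneg (by omega)]; omega⟩)) k hk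
    simpa using this
  -- upper side
  have hU : ∀ k ≤ 2 * N, Rch (fgr_S N A) (fgr_rb (N + 1) 0) (fgr_rb (N - (k : ℤ)) (N + 1)) := by
    intro k hk
    have hm : ∀ k : ℕ, k ≤ 2 * N → fgr_rb ((N : ℤ) - (k : ℤ)) (N + 1) ∈ fgr_S N A := fun k hk =>
      fgr_ring_mem hN A (Or.inr ⟨abs_of_nonneg (by omega), by rw [abs_le]; omega⟩)
    have h0 : Rch (fgr_S N A) (fgr_rb (N + 1) 0) (fgr_rb ((N : ℤ) - ((0 : ℕ) : ℤ)) (N + 1)) :=
      Relation.ReflTransGen.tail (hR1 N le_rfl) ⟨fgr_tch (by simp) (by simp), hm 0 (by omega)⟩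
    refine h0.trans ?_
    exact fgr_path (S := fgr_S N A) (fun k : ℕ => fgr_rb ((N : ℤ) - (k : ℤ)) (N + 1)) (2 * N)
      (fun k hk => fgr_tch (by
        push_cast; rw [show (N : ℤ) - k - (N - (k + 1)) = 1 by ring]; simp) (by simp))
      hm k hk
  -- lower side
  have hD : ∀ k ≤ 2 * N, Rch (fgr_S N A) (fgr_rb (N + 1) 0) (fgr_rb (N - (k : ℤ)) (-(N + 1))) := by
    intro k hk
    have hm : ∀ k : ℕ, k ≤ 2 * N → fgr_rb ((N : ℤ) - (k : ℤ)) (-(N + 1)) ∈ fgr_S N A :=
      fun k hk => fgr_ring_mem hN A (Or.inr ⟨by rw [abs_neg]; exact abs_of_nonneg (by omega), by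
        rw [abs_le]; omega⟩)
    have h0 : Rch (fgr_S N A) (fgr_rb (N + 1) 0) (fgr_rb ((N : ℤ) - ((0 : ℕ) : ℤ)) (-(N + 1))) :=
      Relation.ReflTransGen.tail (hR2 N le_rfl) ⟨fgr_tch (by simp) (by
        rw [show -(N : ℤ) - -(N + 1) = 1 by ring]; simp), hm 0 (by omega)⟩
    refine h0.trans ?_
    exact fgr_path (S := fgr_S N A) (fun k : ℕ => fgr_rb ((N : ℤ) - (k : ℤ)) (-(N + 1))) (2 * N)
      (fun k hk => fgr_tch (by
        push_cast; rw [show (N : ℤ) - k - (N - (k + 1)) = 1 by ring]; simp) (by simp))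
      hm k hk
  -- left side
  have hL : ∀ k ≤ 2 * N, Rch (fgr_S N A) (fgr_rb (N + 1) 0) (fgr_rb (-(N + 1)) (N - (k : ℤ))) := by
    intro k hk
    have hm : ∀ k : ℕ, k ≤ 2 * N → fgr_rb (-(N + 1)) ((N : ℤ) - (k : ℤ)) ∈ fgr_S N A :=
      fun k hk => fgr_ring_mem hN A (Or.inl ⟨by rw [abs_neg]; exact abs_of_nonneg (by omega), by
        rw [abs_le]; omega⟩)
    have h0 : Rch (fgr_S N A) (fgr_rb (N + 1) 0) (fgr_rb (-(N + 1)) ((N : ℤ) - ((0 : ℕ) : ℤ))) :=
      Relation.ReflTransGen.tail (hU (2 * N) le_rfl) ⟨fgr_tch (by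
        push_cast; rw [show (N : ℤ) - 2 * N - -(N + 1) = 1 by ring]; simp) (by simp),
        hm 0 (by omega)⟩
    refine h0.trans ?_
    exact fgr_path (S := fgr_S N A) (fun k : ℕ => fgr_rb (-(N + 1)) ((N : ℤ) - (k : ℤ))) (2 * N)
      (fun k hk => fgr_tch (by simp) (by
        push_cast; rw [show (N : ℤ) - k - (N - (k + 1)) = 1 by ring]; simp))
      hm k hk
  rcases h with ⟨h1, h2⟩ | ⟨h1, h2⟩
  · rcases (abs_eq (by omega : (0 : ℤ) ≤ N + 1)).1 h1 with rfl | rfl
    · rw [abs_le] at h2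
      rcases le_total 0 b with hb | hb
      · have := hR1 b.toNat (by omega)
        rwa [Int.toNat_of_nonneg hb] at this
      · have := hR2 (-b).toNat (by omega)
        rwa [Int.toNat_of_nonneg (by omega), neg_neg] at this
    · rw [abs_le] at h2
      have := hL ((N : ℤ) - b).toNat (by omega)
      rwa [Int.toNat_of_nonneg (by omega), sub_sub_cancel] at this
  · rw [abs_le] at h2
    rcases (abs_eq (by omega : (0 : ℤ) ≤ N + 1)).1 h1 with rfl | rfl
    · have := hU ((N : ℤ) - a).toNat (by omega)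
      rwa [Int.toNat_of_nonneg (by omega), sub_sub_cancel] at this
    · have := hD ((N : ℤ) - a).toNat (by omega)
      rwa [Int.toNat_of_nonneg (by omega), sub_sub_cancel] at this

/-- a broken bond without end in the box is a vertical bond at height 0 -/
theorem fgr_out {N : ℕ} (hN : 1 ≤ N) {A : Finset Site} {c : Bond} (h : c ∈ bd (Pl N A))
    (hc : c ∉ BV N) : ∃ a b : ℤ, c = fgr_rb a b ∧ ((N : ℤ) < |a| ∨ (N : ℤ) < |b|) := by
  have hN' : (1 : ℤ) ≤ N := by exact_mod_cast hN
  rw [mem_BV, not_or] at hc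
  rw [mem_bd] at h
  simp only [Pl, Set.mem_ofPred_eq, hc.1, hc.2, false_and, not_false_eq_true, true_and,
    false_or] at h
  have h2 : c.2 = 2 := by
    by_contra hne
    rw [hi_ne (fun h => hne h.symm)] at h
    exact h Iff.rfl
  have h3 : hi c 2 = lo c 2 + 1 := by
    have := hi_same c
    rwa [h2] at this
  have h4 : lo c 2 = 0 := by
    rw [h3] at h
    by_contra hne
    apply h
    constructor <;> intro <;> omega
  refine ⟨lo c 0, lo c 1, ?_, ?_⟩
  · apply Prod.ext
    · funext j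
      fin_cases j
      · rfl
      · rfl
      · exact h4
    · exact h2
  · by_contra hcon
    push Not at hcon
    apply hc.1
    rw [mem_Vb]
    intro j
    fin_cases j
    · exact hcon.1
    · exact hcon.2
    · change |lo c 2| ≤ _
      rw [h4]
      simp

/-- a bond with an end in the box has both ends in the box or adjacent to it -/
theorem fgr_BV {N : ℕ} {c : Bond} (hc : c ∈ BV N) : lo c ∈ Vbar N ∧ hi c ∈ Vbar N := by
  rw [mem_BV] at hc
  rcases hc with hc | hc
  · refine ⟨Or.inl hc, Or.inr ⟨c.2, Or.inr ?_⟩⟩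
    have : hi c - ev c.2 = lo c := by
      unfold hi lo
      simp
    rw [this]
    exact hc
  · refine ⟨Or.inr ⟨c.2, Or.inl ?_⟩, Or.inl hc⟩
    exact hc

/-- if a vertical bond at height 0 outside of the box has both ends adjacent to the box, it is
in the ring -/
theorem fgr_Vbar {N : ℕ} {a b : ℤ} (h : (N : ℤ) < |a| ∨ (N : ℤ) < |b|)
    (hl : (![a, b, 0] : Site) ∈ Vbar N) : fgr_ring N a b := by
  have hN0 : (0 : ℤ) ≤ N := Int.natCast_nonneg N
  rcases hl with hl | ⟨i, hl | hl⟩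
  · exfalso
    rw [mem_Vb] at hl
    have h0 := hl 0
    have h1 := hl 1
    simp only [Matrix.cons_val_zero, Matrix.cons_val_one] at h0 h1
    omega
  · rw [mem_Vb] at hl
    have h0 := hl 0
    have h1 := hl 1
    unfold fgr_ring
    fin_cases i <;> simp [ev] at h0 h1
    · left
      rw [abs_le] at h0
      rw [abs_eq (by omega)]
      refine ⟨?_, h1⟩
      have : (N : ℤ) < |a| := by omega
      rw [lt_abs] at this
      omega
    · right
      rw [abs_le] at h1
      rw [abs_eq (by omega)]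
      refine ⟨?_, h0⟩
      have : (N : ℤ) < |b| := by omega
      rw [lt_abs] at this
      omega
    · omega
  · rw [mem_Vb] at hl
    have h0 := hl 0
    have h1 := hl 1
    unfold fgr_ring
    fin_cases i <;> simp [ev] at h0 h1
    · left
      rw [abs_le] at h0
      rw [abs_eq (by omega)]
      refine ⟨?_, h1⟩
      have : (N : ℤ) < |a| := by omega
      rw [lt_abs] at this
      omega
    · right
      rw [abs_le] at h1
      rw [abs_eq (by omega)]
      refine ⟨?_, h0⟩
      have : (N : ℤ) < |b| := by omega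
      rw [lt_abs] at this
      omega
    · omega

/-- a bond with an end in the box which touches an outside bond not in the ring touches a bond of
the ring -/
theorem fgr_corner {N : ℕ} {a b : ℤ} (h : (N : ℤ) < |a| ∨ (N : ℤ) < |b|)
    (hr : ¬ fgr_ring N a b) {u : Bond} (hu : u ∈ BV N) (ht : Tch (fgr_rb a b) u) :
    ∃ a' b', fgr_ring N a' b' ∧ Tch (fgr_rb a' b') u := by
  have hN0 : (0 : ℤ) ≤ N := Int.natCast_nonneg N
  obtain ⟨t1, t2, t3, t4⟩ := ht
  rw [fgr_lo] at t1 t2
  rw [fgr_hi] at t3 t4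
  have a1 := t1 0; have b1 := t1 1; have c1 := t1 2; have c3 := t3 2
  have a2 := t2 0; have b2 := t2 1; have c2 := t2 2; have c4 := t4 2
  simp only [Matrix.cons_val_zero, Matrix.cons_val_one, Matrix.cons_val] at a1 b1 c1 c3 a2 b2 c2 c4
  have hadj : ∀ j, lo u j ≤ hi u j ∧ hi u j ≤ lo u j + 1 := fun j => by
    rw [hi_apply]
    have := ev_le u.2 j
    omega
  have d0 := hadj 0
  have d1 := hadj 1
  -- an end in the box
  have hend : (|lo u 0| ≤ N ∧ |lo u 1| ≤ N) ∨ (|hi u 0| ≤ N ∧ |hi u 1| ≤ N) := by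
    rw [mem_BV, mem_Vb, mem_Vb] at hu
    rcases hu with hu | hu
    · exact Or.inl ⟨hu 0, hu 1⟩
    · exact Or.inr ⟨hu 0, hu 1⟩
  have hA : |a| = N + 1 ∧ |b| = N + 1 := by
    unfold fgr_ring at hr
    simp only [abs_le, lt_abs, abs_eq (by omega : (0 : ℤ) ≤ N + 1)] at *
    omega
  rw [abs_eq (by omega), abs_eq (by omega)] at hA
  -- the ring bond (a, b moved towards the box)
  refine ⟨a, if 0 < b then N else -N, ?_, ?_⟩
  · left
    constructor
    · rw [abs_eq (by omega)]; exact hA.1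
    · split_ifs
      · simp
      · simp
  · have key : |(if 0 < b then (N : ℤ) else -N) - lo u 1| ≤ 1 ∧
        |(if 0 < b then (N : ℤ) else -N) - hi u 1| ≤ 1 := by
      simp only [abs_le] at *
      split_ifs <;> omega
    refine ⟨?_, ?_, ?_, ?_⟩ <;> intro j <;> simp only [fgr_lo, fgr_hi] <;> fin_cases j <;>
      simp only [Fin.zero_eta, Fin.mk_one, Fin.reduceFinMk, Matrix.cons_val_zero,
        Matrix.cons_val_one, Matrix.cons_val]
    · exact a1
    · exact key.1
    · exact c1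
    · exact a2
    · exact key.2
    · exact c2
    · exact a1
    · exact key.1
    · exact c3
    · exact a2
    · exact key.2
    · exact c4

theorem fgr : FGRStmt := by
  intro N A hN
  have hrt : rt N ∈ fgr_S N A := fgr_ring_mem hN A (a := (N : ℤ) + 1) (b := 0)
    (Or.inl ⟨abs_of_nonneg (by omega), by simp⟩)
  ext b
  constructor
  · rintro ⟨hb, hb1, hb2⟩
    change Rch (bd (Pl N A)) (rt N) b at hb
    have key : ∀ c, Rch (bd (Pl N A)) (rt N) c → c ∈ fgr_S N A → Rch (fgr_S N A) (rt N) c := by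
      intro c hc
      induction hc with
      | refl => intro _; exact Relation.ReflTransGen.refl
      | @tail d c hd hdc ih =>
        intro hcS
        by_cases hdS : d ∈ fgr_S N A
        · exact Relation.ReflTransGen.tail (ih hdS) ⟨hdc.1, hcS⟩
        · have hdb : d ∈ bd (Pl N A) := Rch.mem hd hrt.1
          have hdV : d ∉ BV N := fun h => hdS ⟨hdb, fgr_BV h⟩
          obtain ⟨a, b', rfl, hab⟩ := fgr_out hN hdb hdV
          have hnr : ¬ fgr_ring N a b' := fun h => hdS (fgr_ring_mem hN A h)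
          by_cases hcV : c ∈ BV N
          · obtain ⟨a', b'', hr', ht'⟩ := fgr_corner hab hnr hcV hdc.1
            exact Relation.ReflTransGen.tail (fgr_ring_conn hN A hr') ⟨ht', hcS⟩
          · obtain ⟨a', b'', rfl, hab'⟩ := fgr_out hN hcS.1 hcV
            exact fgr_ring_conn hN A (fgr_Vbar hab' hcS.2.1)
    have hbS : b ∈ fgr_S N A := by
      refine ⟨Rch.mem hb hrt.1, hb1, hb2⟩
    exact key b hb hbS
  · intro hb
    change Rch (fgr_S N A) (rt N) b at hb
    have hbS : b ∈ fgr_S N A := Rch.mem hb hrt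
    refine ⟨?_, hbS.2.1, hbS.2.2⟩
    exact Rch.mono (fun c hc => hc.1) hb

end Pool.ISH
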