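import Pool.Agent.H40.ISH.Stmts

/-!
Project ISH, module OUT: from thin sides to the density property.
-/

set_option linter.unusedVariables false

namespace Pool.ISH

open MeasureTheory Filter Topology
open scoped Classical Pointwise

/-- an outside site `w` on the side `s` in `Qb y R'` gives many sites of this side -/
theorem out_far (h : GAMStmt) {N : ℕ} {A : Finset Site} {s : Bool} {x y w : Site} {R R' : ℕ}
    (hR : 2 * R' + 1 ≤ R) (hxy : ∀ i, |x i - y i| ≤ 1) (hw : w ∈ Qb y R') (hwV : w ∉ Vb N)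
    (hwS : w ∈ Sd N A s) : (R' + 1) ^ 3 ≤ cnt (Sd N A s) x R := by
  obtain ⟨-, -, hout, -⟩ := h N A
  have hSd : ∀ u, u ∉ Vb N → (u ∈ Sd N A s ↔ (if s then u 2 ≤ 0 else 1 ≤ u 2)) := by
    intro u hu
    cases s with
    | true => simp only [Sd, if_true]; exact hout u hu
    | false =>
      simp only [Sd, Bool.false_eq_true, if_false, Set.mem_compl_iff, hout u hu]
      omega
  have hw2 := (hSd w hwV).1 hwS
  rw [mem_Vb] at hwV
  push Not at hwV
  obtain ⟨i, hi⟩ := hwV
  -- the corner of the box of sites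
  let z : Site := fun j => if j = 2 then (if s then w j - R' else w j) else
    (if j = i ∧ w j < 0 then w j - R' else w j)
  have hz : ∀ j, z j = w j - R' ∨ z j = w j := by
    intro j
    simp only [z]
    split_ifs <;> simp
  have hsub : cube z (R' + 1) ⊆ (Qb x R).filter (fun u => u ∈ Sd N A s) := by
    intro u hu
    rw [mem_cube] at hu
    push_cast at hu
    rw [Finset.mem_filter, mem_Qb]
    rw [mem_Qb] at hw
    refine ⟨fun j => ?_, ?_⟩
    · have h1 := hw j
      have h2 := hu j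
      have h3 := hxy j
      rw [abs_le] at *
      have h4 : (2 * (R' : ℤ) + 1 ≤ R) := by exact_mod_cast hR
      rcases hz j with h5 | h5 <;> constructor <;> linarith [h1.1, h1.2, h2.1, h2.2, h3.1, h3.2]
    · have h2 := hu 2
      have h2z : z 2 = if s then w 2 - R' else w 2 := by simp [z]
      have huV : u ∉ Vb N := by
        rw [mem_Vb]
        push Not
        refine ⟨i, ?_⟩
        have h3 := hu i
        rw [lt_abs] at hi ⊢
        by_cases hi2 : i = 2
        · subst hi2
          rw [h2z] at h3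
          cases s with
          | true =>
            simp only [if_true] at h3 hw2
            right
            rcases hi with hi | hi
            · have : (0 : ℤ) ≤ N := Int.natCast_nonneg N
              omega
            · omega
          | false =>
            simp only [Bool.false_eq_true, if_false] at h3 hw2
            left
            rcases hi with hi | hi
            · omega
            · have : (0 : ℤ) ≤ N := Int.natCast_nonneg N
              omega
        · have hzi : z i = if w i < 0 then w i - R' else w i := by simp [z, hi2]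
          rw [hzi] at h3
          have hN0 : (0 : ℤ) ≤ N := Int.natCast_nonneg N
          by_cases hneg : w i < 0
          · rw [if_pos hneg] at h3
            right
            omega
          · rw [if_neg hneg] at h3
            left
            omega
      rw [hSd u huV]
      rw [h2z] at h2
      cases s with
      | true =>
        simp only [if_true] at h2 hw2 ⊢
        omega
      | false =>
        simp only [Bool.false_eq_true, if_false] at h2 hw2 ⊢
        omega
  have h1 := Finset.card_le_card hsub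
  rw [card_cube] at h1
  exact h1

theorem out_side (h : GAMStmt) {δ : ℝ} (hδ : 0 < δ) {N : ℕ} (hN : 3 ≤ Lg N) {A : Finset Site}
    (hT : ¬ Thin δ (Lg N ^ 5) N A) {b : Bond} (hb : b ∈ Gam N A) {x : Site}
    (hx : x = lo b ∨ x = hi b) {R : ℕ} (hR : Lg N ^ 6 ≤ R) (s : Bool) :
    min (δ / 64) (1 / 8) * (R : ℝ) ^ 3 ≤ (cnt (Sd N A s) x R : ℝ) := by
  obtain ⟨-, hbd, -, -⟩ := h N A
  have hbS : bd (Sd N A s) = Gam N A := by
    cases s with
    | true => simpa [Sd] using hbd
    | false => simpa [Sd, bd_compl] using hbd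
  have hb' : b ∈ bd (Sd N A s) := by rw [hbS]; exact hb
  -- the end of b on this side
  obtain ⟨y, hy1, hy2⟩ : ∃ y, (y = lo b ∨ y = hi b) ∧ y ∈ Sd N A s := by
    rw [mem_bd] at hb'
    by_cases h1 : lo b ∈ Sd N A s
    · exact ⟨lo b, Or.inl rfl, h1⟩
    · refine ⟨hi b, Or.inr rfl, ?_⟩
      by_contra h2
      exact hb' ⟨fun h3 => absurd h3 h1, fun h3 => absurd h3 h2⟩
  have hxy : ∀ i, |x i - y i| ≤ 1 := by
    rcases hx with rfl | rfl <;> rcases hy1 with rfl | rfl
    · exact Nr1.refl _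
    · exact Nr1_lo_hi b
    · exact (Nr1_lo_hi b).symm
    · exact Nr1.refl _
  have hL1 : 3 * Lg N ^ 5 ≤ R := by
    refine le_trans ?_ hR
    rw [pow_succ (Lg N) 5, mul_comm]
    exact Nat.mul_le_mul_left _ hN
  have hL2 : 3 ^ 5 ≤ Lg N ^ 5 := Nat.pow_le_pow_left hN 5
  have hL3 : 3 ^ 5 = 243 := by norm_num
  set R' := (R - 1) / 2 with hR'
  have h2R : 2 * R' + 1 ≤ R := by omega
  have h4R : R ≤ 4 * R' := by omega
  have hRR : Lg N ^ 5 ≤ R' := by omega
  have h2R2 : R ≤ 2 * (R' + 1) := by omega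
  have hR0 : (0 : ℝ) ≤ (R : ℝ) ^ 3 := by positivity
  by_cases hc : ∀ w ∈ Qb y R', w ∈ Sd N A s → w ∈ Vb N
  · have h1 : δ * (R' : ℝ) ^ 3 < (cnt (Sd N A s) y R' : ℝ) := by
      by_contra hcon
      rw [not_lt] at hcon
      exact hT ⟨s, y, R', hRR, ⟨hy2, b, hb', by
        rcases hy1 with rfl | rfl
        · exact Or.inl rfl
        · exact Or.inr rfl⟩, hc, hcon⟩
    have h2 : cnt (Sd N A s) y R' ≤ cnt (Sd N A s) x R := by
      unfold cnt
      apply Finset.card_le_card
      intro u hu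
      rw [Finset.mem_filter, mem_Qb] at *
      refine ⟨fun i => ?_, hu.2⟩
      have h3 := hu.1 i
      have h4 := hxy i
      rw [abs_le] at *
      have h5 : (2 * (R' : ℤ) + 1 ≤ R) := by exact_mod_cast h2R
      constructor <;> linarith [h3.1, h3.2, h4.1, h4.2]
    have h3 : (R : ℝ) ^ 3 ≤ 64 * (R' : ℝ) ^ 3 := by
      have h4 : (R : ℝ) ≤ 4 * R' := by exact_mod_cast h4R
      calc (R : ℝ) ^ 3 ≤ (4 * R') ^ 3 := pow_le_pow_left₀ (Nat.cast_nonneg R) h4 3
        _ = 64 * (R' : ℝ) ^ 3 := by ring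
    have h5 : (cnt (Sd N A s) y R' : ℝ) ≤ cnt (Sd N A s) x R := by exact_mod_cast h2
    calc min (δ / 64) (1 / 8) * (R : ℝ) ^ 3 ≤ δ / 64 * (R : ℝ) ^ 3 :=
          mul_le_mul_of_nonneg_right (min_le_left _ _) hR0
      _ ≤ δ / 64 * (64 * (R' : ℝ) ^ 3) := mul_le_mul_of_nonneg_left h3 (by positivity)
      _ = δ * (R' : ℝ) ^ 3 := by ring
      _ ≤ _ := h1.le.trans h5
  · push Not at hc
    obtain ⟨w, hw1, hw2, hw3⟩ := hc
    have h1 := out_far h h2R hxy hw1 hw3 hw2
    have h2 : (R : ℝ) ^ 3 ≤ 8 * ((R' + 1 : ℕ) : ℝ) ^ 3 := by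
      have h4 : (R : ℝ) ≤ 2 * ((R' + 1 : ℕ) : ℝ) := by exact_mod_cast h2R2
      calc (R : ℝ) ^ 3 ≤ (2 * ((R' + 1 : ℕ) : ℝ)) ^ 3 :=
            pow_le_pow_left₀ (Nat.cast_nonneg R) h4 3
        _ = 8 * ((R' + 1 : ℕ) : ℝ) ^ 3 := by ring
    have h3 : (((R' + 1) ^ 3 : ℕ) : ℝ) ≤ cnt (Sd N A s) x R := by exact_mod_cast h1
    rw [Nat.cast_pow] at h3
    calc min (δ / 64) (1 / 8) * (R : ℝ) ^ 3 ≤ 1 / 8 * (R : ℝ) ^ 3 :=
          mul_le_mul_of_nonneg_right (min_le_right _ _) hR0
      _ ≤ 1 / 8 * (8 * ((R' + 1 : ℕ) : ℝ) ^ 3) := mul_le_mul_of_nonneg_left h2 (by norm_num)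
      _ = ((R' + 1 : ℕ) : ℝ) ^ 3 := by ring
      _ ≤ _ := h3

theorem out (h : GAMStmt) : OUTStmt := by
  intro δ hδ
  refine ⟨min (δ / 64) (1 / 8), by positivity, 4, fun N hN A hA hT b hb x hx R hR => ?_⟩
  have hL : 3 ≤ Lg N := by
    unfold Lg
    have : Nat.log 2 4 ≤ Nat.log 2 N := Nat.log_mono_right hN
    have h2 : Nat.log 2 4 = 2 := by
      rw [show (4 : ℕ) = 2 ^ 2 by norm_num]
      exact Nat.log_pow (by norm_num) 2
    omega
  constructor
  · have := out_side h hδ hL hT hb hx hR true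
    simpa [Sd] using this
  · have := out_side h hδ hL hT hb hx hR false
    simpa [Sd] using this

end Pool.ISH
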