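import Pool.Agent.H40.ISH.Stmts

/-!
Project ISH, module PLC: plaquettes are compact and connected; a plaquette covered by finitely
many plaquettes is one of them.
-/

set_option linter.unusedVariables false

namespace Pool.ISH

open MeasureTheory Filter Topology
open scoped Classical Pointwise

theorem plc_image (b : Bond) : plaq b = (WithLp.toLp 2 : (Fin 3 → ℝ) → E3) ''
    Set.Icc (fun j => if j = b.2 then (b.1 j : ℝ) + 1 / 2 else (b.1 j : ℝ) - 1 / 2)
      (fun j => (b.1 j : ℝ) + 1 / 2) := by
  ext y
  simp only [plaq, Set.mem_ofPred_eq, Set.mem_image, Set.mem_Icc, Pi.le_def]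
  constructor
  · rintro ⟨h1, h2⟩
    refine ⟨y, ⟨fun j => ?_, fun j => ?_⟩, rfl⟩
    · by_cases hj : j = b.2
      · subst hj
        simp only [if_true]
        exact h1.ge
      · simp only [if_neg hj]
        have := (abs_le.1 (h2 j hj)).1
        linarith
    · by_cases hj : j = b.2
      · subst hj
        exact h1.le
      · have := (abs_le.1 (h2 j hj)).2
        linarith
  · rintro ⟨z, ⟨h1, h2⟩, rfl⟩
    constructor
    · have h3 := h1 b.2
      have h4 := h2 b.2
      simp only [if_true] at h3
      exact le_antisymm h4 h3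
    · intro j hj
      have h3 := h1 j
      have h4 := h2 j
      simp only [if_neg hj] at h3
      change |z j - _| ≤ _
      rw [abs_le]
      constructor <;> linarith

theorem plc_convex (b : Bond) : Convex ℝ (plaq b) := by
  intro x hx y hy s t hs ht hst
  obtain ⟨hx1, hx2⟩ := hx
  obtain ⟨hy1, hy2⟩ := hy
  constructor
  · change s * x b.2 + t * y b.2 = _
    rw [hx1, hy1, ← add_mul, hst, one_mul]
  · intro j hj
    change |s * x j + t * y j - _| ≤ _
    have h1 := abs_le.1 (hx2 j hj)
    have h2 := abs_le.1 (hy2 j hj)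
    have h3 : s * x j + t * y j - (b.1 j : ℝ) = s * (x j - b.1 j) + t * (y j - b.1 j) := by
      have : (b.1 j : ℝ) = (s + t) * b.1 j := by rw [hst, one_mul]
      linear_combination -this
    rw [h3, abs_le]
    constructor <;> nlinarith

theorem plc : PLCStmt := by
  constructor
  · intro b
    constructor
    · rw [plc_image]
      exact isCompact_Icc.image (PiLp.continuous_toLp 2 _)
    · exact (plc_convex b).isPreconnected
  · intro S b h
    have hc : (WithLp.toLp 2 (fun j => if j = b.2 then (b.1 j : ℝ) + 1 / 2 else (b.1 j : ℝ)) : E3) ∈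
        plaq b := by
      constructor
      · change (if b.2 = b.2 then (b.1 b.2 : ℝ) + 1 / 2 else (b.1 b.2 : ℝ)) = _
        rw [if_pos rfl]
      · intro j hj
        change |(if j = b.2 then (b.1 j : ℝ) + 1 / 2 else (b.1 j : ℝ)) - _| ≤ _
        rw [if_neg hj, sub_self, abs_zero]
        norm_num
    have h1 := h hc
    simp only [Set.mem_iUnion] at h1
    obtain ⟨c, hcS, hc1, hc2⟩ := h1
    change (if c.2 = b.2 then (b.1 c.2 : ℝ) + 1 / 2 else (b.1 c.2 : ℝ)) = _ at hc1
    have h2 : c.2 = b.2 := by
      by_contra hne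
      rw [if_neg hne] at hc1
      have h3 : (2 : ℝ) * (b.1 c.2 : ℝ) = 2 * (c.1 c.2 : ℝ) + 1 := by linarith
      have h4 : 2 * b.1 c.2 = 2 * c.1 c.2 + 1 := by exact_mod_cast h3
      omega
    rw [if_pos h2] at hc1
    have h5 : c.1 = b.1 := by
      funext j
      by_cases hj : j = c.2
      · subst hj
        have : (b.1 c.2 : ℝ) = c.1 c.2 := by linarith
        exact_mod_cast this.symm
      · have h6 := hc2 j hj
        change |(if j = b.2 then (b.1 j : ℝ) + 1 / 2 else (b.1 j : ℝ)) - _| ≤ _ at h6
        rw [if_neg (by rw [← h2]; exact hj)] at h6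
        have h7 := abs_le.1 h6
        have h8 : (b.1 j : ℝ) - c.1 j < 1 := by linarith [h7.2]
        have h9 : (-1 : ℝ) < (b.1 j : ℝ) - c.1 j := by linarith [h7.1]
        have h10 : b.1 j - c.1 j < 1 := by exact_mod_cast h8
        have h11 : -1 < b.1 j - c.1 j := by exact_mod_cast h9
        omega
    have : b = c := Prod.ext h5.symm h2.symm
    rw [this]
    exact hcS

end Pool.ISH
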