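import Pool.Agent.H40.ISH.Stmts

/-!
Project ISH, module RDA: there are few radii for which the cut is not small.
-/

set_option linter.unusedVariables false

namespace Pool.ISH

open MeasureTheory Filter Topology
open scoped Classical Pointwise

theorem rda_cnt_mono (D : Set Site) (x : Site) {r s : ℕ} (h : r ≤ s) : cnt D x r ≤ cnt D x s :=
  Finset.card_le_card (Finset.filter_subset_filter _ (Qb_mono x h))

theorem rda_cut (D : Set Site) (x : Site) (r : ℕ) :
    cut D x (r + 1) + 3 * cnt D x r ≤ 3 * cnt D x (r + 1) := by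
  set L : Finset Site := ((Qb x (r + 1)).filter (fun y => y ∈ D)) \
    ((Qb x r).filter (fun y => y ∈ D)) with hL
  have hLc : L.card + cnt D x r = cnt D x (r + 1) := by
    have := Finset.card_sdiff_add_card_eq_card
      (Finset.filter_subset_filter (fun y => y ∈ D) (Qb_mono x (Nat.le_succ r)))
    exact this
  have hmem : ∀ y, y ∈ L ↔ y ∈ Qb x (r + 1) ∧ y ∈ D ∧ y ∉ Qb x r := by
    intro y
    rw [hL, Finset.mem_sdiff, Finset.mem_filter, Finset.mem_filter]
    tauto
  have hcard : cut D x (r + 1) ≤ (L ×ˢ (Finset.univ : Finset (Fin 3))).card := by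
    unfold cut
    refine Finset.card_le_card_of_injOn
      (fun b => (if lo b ∈ Qb x (r + 1) then lo b else hi b, b.2)) ?_ ?_
    · intro b hb
      rw [Finset.mem_coe, Finset.mem_filter] at hb
      rw [Finset.mem_coe, Finset.mem_product]
      refine ⟨?_, Finset.mem_univ _⟩
      obtain ⟨-, hb⟩ := hb
      have hadj : ∀ j, lo b j ≤ hi b j ∧ hi b j ≤ lo b j + 1 := fun j => by
        rw [hi_apply]
        have := ev_le b.2 j
        omega
      rcases hb with ⟨h1, h2, h3⟩ | ⟨h1, h2, h3⟩
      · simp only [if_pos h1]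
        rw [hmem]
        refine ⟨h1, h2, fun h4 => h3 ?_⟩
        rw [mem_Qb] at h4 ⊢
        intro j
        have h5 := h4 j
        have h6 := hadj j
        rw [abs_le] at *
        push_cast
        omega
      · simp only [if_neg h3]
        rw [hmem]
        refine ⟨h1, h2, fun h4 => h3 ?_⟩
        rw [mem_Qb] at h4 ⊢
        intro j
        have h5 := h4 j
        have h6 := hadj j
        rw [abs_le] at *
        push_cast
        omega
    · intro b hb c hc hbc
      rw [Finset.mem_coe, Finset.mem_filter] at hb hc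
      simp only [Prod.mk.injEq] at hbc
      obtain ⟨hbc1, hbc2⟩ := hbc
      -- a crossing in both directions is impossible
      have key : ∀ b c : Bond, b.2 = c.2 → lo b = hi c → lo b ∈ Qb x (r + 1) →
          hi b ∉ Qb x (r + 1) → lo c ∉ Qb x (r + 1) → False := by
        intro b c h1 h2 h3 h4 h5
        apply h4
        rw [mem_Qb] at h3 ⊢
        intro j
        have h6 := h3 j
        by_cases hj : j = b.2
        · subst hj
          rw [hi_same]
          by_contra h7
          apply h5
          rw [mem_Qb]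
          intro k
          have h8 := h3 k
          rw [h2] at h8
          by_cases hk : k = c.2
          · subst hk
            rw [hi_same] at h8
            rw [h2, h1, hi_same] at h6 h7
            rw [abs_le] at *
            push_cast at *
            omega
          · rw [hi_ne hk] at h8
            exact h8
        · rw [hi_ne hj]
          exact h6
      rcases hb.2 with ⟨h1, h2, h3⟩ | ⟨h1, h2, h3⟩ <;> rcases hc.2 with ⟨g1, g2, g3⟩ | ⟨g1, g2, g3⟩
      · rw [if_pos h1, if_pos g1] at hbc1
        exact Prod.ext hbc1 hbc2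
      · rw [if_pos h1, if_neg g3] at hbc1
        exact (key b c hbc2 hbc1 h1 h3 g3).elim
      · rw [if_neg h3, if_pos g1] at hbc1
        exact (key c b hbc2.symm hbc1.symm g1 g3 h3).elim
      · rw [if_neg h3, if_neg g3] at hbc1
        refine Prod.ext ?_ hbc2
        unfold hi at hbc1
        rw [hbc2] at hbc1
        exact add_right_cancel hbc1
  rw [Finset.card_product, Finset.card_univ, Fintype.card_fin] at hcard
  omega

/-- the cube root of the number of sites -/
noncomputable def rda_w (D : Set Site) (x : Site) (r : ℕ) : ℝ := ((cnt D x r : ℕ) : ℝ) ^ ((3 : ℝ)⁻¹)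

theorem rda_w0 (D : Set Site) (x : Site) (r : ℕ) : 0 ≤ rda_w D x r :=
  Real.rpow_nonneg (Nat.cast_nonneg _) _

theorem rda_w3 (D : Set Site) (x : Site) (r : ℕ) : rda_w D x r ^ 3 = cnt D x r := by
  unfold rda_w
  rw [← Real.rpow_natCast, ← Real.rpow_mul (Nat.cast_nonneg _)]
  norm_num

theorem rda_lt {a b : ℝ} (ha : 0 ≤ a) (hb : 0 ≤ b) (h : a ^ 3 ≤ b ^ 3) : a ≤ b := by
  by_contra hcon
  rw [not_le] at hcon
  exact absurd h (not_le.2 (pow_lt_pow_left₀ hcon hb (by norm_num)))

theorem rda_wmono (D : Set Site) (x : Site) {r s : ℕ} (h : r ≤ s) : rda_w D x r ≤ rda_w D x s := by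
  apply rda_lt (rda_w0 _ _ _) (rda_w0 _ _ _)
  rw [rda_w3, rda_w3]
  exact_mod_cast rda_cnt_mono D x h

theorem rda (hI : ISOStmt) : RDAStmt := by
  intro D x ρ hρ
  have hwρ : rda_w D x ρ ≤ (ρ : ℝ) / 1000 := by
    apply rda_lt (rda_w0 _ _ _) (by positivity)
    rw [rda_w3]
    have : (10 ^ 9 * (cnt D x ρ : ℝ)) ≤ (ρ : ℝ) ^ 3 := by exact_mod_cast hρ
    rw [div_pow]
    norm_num at *
    linarith
  -- one step
  have hstep : ∀ s, s + 1 ≤ ρ → ρ ≤ 2 * (s + 1) → sf D x (s + 1) < 8 * cut D x (s + 1) →
      rda_w D x s + 1 / 27 ≤ rda_w D x (s + 1) := by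
    intro s h1 h2 h3
    set w := rda_w D x (s + 1) with hw
    set w' := rda_w D x s with hw'
    have hw0 : 0 ≤ w := rda_w0 _ _ _
    have hw'0 : 0 ≤ w' := rda_w0 _ _ _
    have e1 : w ^ 3 = cnt D x (s + 1) := rda_w3 _ _ _
    have e2 : w' ^ 3 = cnt D x s := rda_w3 _ _ _
    have e3 : (cut D x (s + 1) : ℝ) + 3 * cnt D x s ≤ 3 * cnt D x (s + 1) := by
      exact_mod_cast rda_cut D x s
    have e4 : (sf D x (s + 1) : ℝ) < 8 * cut D x (s + 1) := by exact_mod_cast h3
    have hcnt : 1 ≤ cnt D x (s + 1) := by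
      by_contra hcon
      have : cnt D x (s + 1) = 0 := by omega
      have := rda_cut D x s
      omega
    have hw1 : 1 ≤ w := by
      apply rda_lt zero_le_one hw0
      rw [e1, one_pow]
      exact_mod_cast hcnt
    have hwr : w ≤ 2 * ((s + 1 : ℕ) : ℝ) / 1000 := by
      have h4 : w ≤ rda_w D x ρ := rda_wmono D x h1
      have h5 : (ρ : ℝ) ≤ 2 * ((s + 1 : ℕ) : ℝ) := by exact_mod_cast h2
      linarith
    have e5 := hI D x (s + 1) w hw0 e1.le
    rw [← e1] at e5
    have e6 : 3 * w ^ 3 / (2 * ((s + 1 : ℕ) : ℝ) + 1) ≤ 3 * w ^ 2 / 1000 := by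
      rw [div_le_div_iff₀ (by positivity) (by norm_num)]
      have h6 : w ^ 3 = w ^ 2 * w := by ring
      have h7 : 0 ≤ w ^ 2 := by positivity
      rw [h6]
      nlinarith
    have e7 : w ^ 2 / 9 < w ^ 3 - w' ^ 3 := by
      rw [e1, e2]
      nlinarith
    by_contra hcon
    rw [not_le] at hcon
    have h8 : (w - 1 / 27) ^ 3 ≤ w' ^ 3 := pow_le_pow_left₀ (by linarith) (by linarith) 3
    have h9 : (w - 1 / 27) ^ 3 = w ^ 3 - w ^ 2 / 9 + w / 243 - 1 / 19683 := by ring
    rw [h9] at h8
    linarith
  have hind : ∀ s ≤ ρ, (((Finset.Icc 1 s).filter (fun r => ρ ≤ 2 * r ∧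
      sf D x r < 8 * cut D x r)).card : ℝ) ≤ 27 * rda_w D x s := by
    intro s
    induction s with
    | zero =>
      intro _
      simp only [Finset.Icc_eq_empty_of_lt Nat.zero_lt_one, Finset.filter_empty,
        Finset.card_empty, Nat.cast_zero]
      have := rda_w0 D x 0
      linarith
    | succ s ih =>
      intro hs
      have ih' := ih (by omega)
      have h1 : Finset.Icc 1 (s + 1) = insert (s + 1) (Finset.Icc 1 s) := by
        ext k
        simp only [Finset.mem_Icc, Finset.mem_insert]
        omega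
      rw [h1, Finset.filter_insert]
      split_ifs with hb
      · have h2 := hstep s hs hb.1 hb.2
        have h3 : ((insert (s + 1) ((Finset.Icc 1 s).filter (fun r => ρ ≤ 2 * r ∧
            sf D x r < 8 * cut D x r))).card : ℝ) ≤ (((Finset.Icc 1 s).filter
              (fun r => ρ ≤ 2 * r ∧ sf D x r < 8 * cut D x r)).card : ℝ) + 1 := by
          exact_mod_cast Finset.card_insert_le _ _
        linarith
      · have h2 := rda_wmono D x (Nat.le_succ s)
        linarith
  have h1 := hind ρ le_rfl
  have h2 : (16 * (((Finset.Icc 1 ρ).filter (fun r => ρ ≤ 2 * r ∧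
      sf D x r < 8 * cut D x r)).card : ℝ)) ≤ ρ := by
    have : (0 : ℝ) ≤ ρ := Nat.cast_nonneg _
    linarith
  exact_mod_cast h2

end Pool.ISH
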