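import Pool.Agent.H40.ISH.Stmts

/-!
Project ISH, module SUR: the surface of a region is compact and contains the boundary curve.
-/

set_option linter.unusedVariables false

namespace Pool.ISH

open MeasureTheory Filter Topology
open scoped Classical Pointwise

theorem sur_Qc : IsCompact Qc := by
  have h : Qc = (WithLp.toLp 2 : (Fin 3 → ℝ) → E3) '' Set.Icc (fun _ => -1) (fun _ => 1) := by
    ext y
    simp only [Qc, Set.mem_ofPred_eq, Set.mem_image, Set.mem_Icc, Pi.le_def, abs_le]
    constructor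
    · intro h
      exact ⟨y, ⟨fun i => (h i).1, fun i => (h i).2⟩, rfl⟩
    · rintro ⟨z, ⟨h1, h2⟩, rfl⟩ i
      exact ⟨h1 i, h2 i⟩
  rw [h]
  exact isCompact_Icc.image (PiLp.continuous_toLp 2 _)

theorem sur_cont (i : Fin 3) : Continuous (fun z : E3 => z i) :=
  (EuclideanSpace.proj (𝕜 := ℝ) i).continuous

theorem sur_pos {y : E3} {i : Fin 3} (hi : i ≠ 2) (hy2 : y 2 = 0) (hyi : |y i| = 1) {r : ℝ}
    (hr : 0 < r) {σ : ℝ} (hσ : σ = 1 ∨ σ = -1) :
    0 < volume (Metric.ball y r ∩ {z : E3 | 1 < |z i| ∧ 0 < σ * z 2}) := by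
  have hopen : IsOpen (Metric.ball y r ∩ {z : E3 | 1 < |z i| ∧ 0 < σ * z 2}) := by
    apply Metric.isOpen_ball.inter
    exact (isOpen_lt continuous_const (sur_cont i).abs).inter
      (isOpen_lt continuous_const (continuous_const.mul (sur_cont 2)))
  refine hopen.measure_pos volume ?_
  have hyi' : y i = 1 ∨ y i = -1 := (abs_eq zero_le_one).1 hyi
  have hσσ : σ * σ = 1 := by rcases hσ with h | h <;> rw [h] <;> norm_num
  have hσa : |σ| = 1 := by rcases hσ with h | h <;> rw [h] <;> norm_num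
  have hss : y i * y i = 1 := by rcases hyi' with h | h <;> rw [h] <;> norm_num
  refine ⟨y + EuclideanSpace.single i (y i * (r / 4)) + EuclideanSpace.single 2 (σ * (r / 4)),
    ?_, ?_, ?_⟩
  · rw [Metric.mem_ball, dist_eq_norm]
    have h1 : y + EuclideanSpace.single i (y i * (r / 4)) + EuclideanSpace.single 2 (σ * (r / 4))
        - y = EuclideanSpace.single i (y i * (r / 4)) + EuclideanSpace.single 2 (σ * (r / 4)) := by
      abel
    rw [h1]
    refine lt_of_le_of_lt (norm_add_le _ _) ?_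
    rw [PiLp.norm_single, PiLp.norm_single, Real.norm_eq_abs, Real.norm_eq_abs, abs_mul,
      abs_mul, hyi, hσa, abs_of_pos (by positivity : 0 < r / 4)]
    linarith
  · have h2 : (y + EuclideanSpace.single i (y i * (r / 4)) +
        EuclideanSpace.single 2 (σ * (r / 4)) : E3) i = y i * (1 + r / 4) := by
      simp [hi]
      ring
    rw [h2, abs_mul, hyi, one_mul, abs_of_pos (by positivity)]
    linarith
  · have h2 : (y + EuclideanSpace.single i (y i * (r / 4)) +
        EuclideanSpace.single 2 (σ * (r / 4)) : E3) 2 = σ * (r / 4) := by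
      simp [hi.symm, hy2]
    rw [h2, ← mul_assoc, hσσ, one_mul]
    positivity

theorem sur : SURStmt := by
  intro K hK
  constructor
  · apply sur_Qc.of_isClosed_subset _ (fun y hy => hy.1)
    rw [← closure_subset_iff_isClosed]
    intro y hy
    refine ⟨sur_Qc.isClosed.closure_subset_iff.2 (fun y hy => hy.1) hy, fun r hr => ?_⟩
    obtain ⟨z, hz, hd⟩ := Metric.mem_closure_iff.1 hy (r / 2) (half_pos hr)
    have hsub : Metric.ball z (r / 2) ⊆ Metric.ball y r :=
      Metric.ball_subset_ball' (by rw [dist_comm]; linarith)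
    obtain ⟨-, h2⟩ := hz
    obtain ⟨h3, h4⟩ := h2 (r / 2) (half_pos hr)
    exact ⟨h3.trans_le (measure_mono (Set.inter_subset_inter_left _ hsub)),
      h4.trans_le (measure_mono (Set.sdiff_subset_sdiff_left hsub))⟩
  · intro y hyQ hy2 hy
    refine ⟨hyQ, fun r hr => ?_⟩
    obtain ⟨i, hi, hyi⟩ : ∃ i : Fin 3, i ≠ 2 ∧ |y i| = 1 := by
      rcases hy with h | h
      · exact ⟨0, by decide, h⟩
      · exact ⟨1, by decide, h⟩
    constructor
    · refine (sur_pos hi hy2 hyi hr (Or.inr rfl)).trans_le (measure_mono ?_)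
      rintro z ⟨hz1, hz2, hz3⟩
      refine ⟨hz1, Or.inr ⟨fun h => ?_, ?_⟩⟩
      · exact absurd (h i) (not_le.2 hz2)
      · linarith
    · refine (sur_pos hi hy2 hyi hr (Or.inl rfl)).trans_le (measure_mono ?_)
      rintro z ⟨hz1, hz2, hz3⟩
      refine ⟨hz1, ?_⟩
      rintro (⟨h, -⟩ | ⟨-, h⟩)
      · exact absurd (h i) (not_le.2 hz2)
      · linarith

end Pool.ISH
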