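import Pool.Agent.H40.ISH.Stmts

/-!
Project ISH, module HD2: the interface is near the surface.
-/

set_option linter.unusedVariables false

namespace Pool.ISH

open MeasureTheory Filter Topology
open scoped Classical Pointwise

/-- a box of side `1 / (2 N)` -/
def hd2_H (N : ℕ) (a : Fin 3 → ℝ) : Set E3 :=
  {y | ∀ i, (N : ℝ) * y i ∈ Set.Ioo (a i) (a i + 1 / 2)}

theorem hd2_pre (N : ℕ) (hN : 1 ≤ N) (a : Fin 3 → ℝ) :
    hd2_H N a = (@WithLp.ofLp 2 (Fin 3 → ℝ)) ⁻¹'
      (Set.pi Set.univ (fun i => Set.Ioo (a i / N) ((a i + 1 / 2) / N))) := by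
  have hN' : (0 : ℝ) < N := by exact_mod_cast hN
  ext y
  simp only [hd2_H, Set.mem_ofPred_eq, Set.mem_Ioo, Set.mem_preimage, Set.mem_pi, Set.mem_univ,
    true_implies]
  refine forall_congr' (fun i => ?_)
  rw [div_lt_iff₀ hN', lt_div_iff₀ hN', mul_comm]

theorem hd2_meas (N : ℕ) (hN : 1 ≤ N) (a : Fin 3 → ℝ) : MeasurableSet (hd2_H N a) := by
  rw [hd2_pre N hN]
  exact (PiLp.volume_preserving_ofLp (Fin 3)).measurable
    (MeasurableSet.univ_pi (fun i => measurableSet_Ioo))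

theorem hd2_vol (N : ℕ) (hN : 1 ≤ N) (a : Fin 3 → ℝ) :
    volume (hd2_H N a) = ENNReal.ofReal ((1 / (2 * (N : ℝ))) ^ 3) := by
  have hN' : (0 : ℝ) < N := by exact_mod_cast hN
  rw [hd2_pre N hN, (PiLp.volume_preserving_ofLp (Fin 3)).measure_preimage
    (MeasurableSet.univ_pi (fun i => measurableSet_Ioo)).nullMeasurableSet, Real.volume_pi_Ioo]
  have h : ∀ i : Fin 3, (a i + 1 / 2) / (N : ℝ) - a i / N = 1 / (2 * N) := by
    intro i
    field_simp
    ring
  simp only [h, Finset.prod_const, Finset.card_univ, Fintype.card_fin]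
  rw [ENNReal.ofReal_pow (by positivity)]

/-- corner of the half cell -/
noncomputable def hd2_a (u : Site) : Fin 3 → ℝ := fun i => if 0 < u i then (u i : ℝ) - 1 / 2 else u i

theorem hd2_round {N : ℕ} {u : Site} {y : E3} (hy : y ∈ hd2_H N (hd2_a u)) (i : Fin 3) :
    |(N : ℝ) * y i - u i| < 1 / 2 := by
  have h := hy i
  unfold hd2_a at h
  rw [abs_lt]
  split_ifs at h with h1
  · constructor <;> linarith [h.1, h.2]
  · constructor <;> linarith [h.1, h.2]

theorem hd2_round2 {N : ℕ} {u : Site} {y : E3} (hy : y ∈ hd2_H N (hd2_a u)) :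
    (fun i => round ((N : ℝ) * y i)) = u := by
  funext i
  have h := abs_lt.1 (hd2_round hy i)
  rw [round_eq]
  rw [Int.floor_eq_iff]
  constructor <;> linarith [h.1, h.2]

theorem hd2_Qc {N : ℕ} (hN : 1 ≤ N) {u : Site} (hu : u ∈ Vb N) {y : E3}
    (hy : y ∈ hd2_H N (hd2_a u)) : y ∈ Qc := by
  intro i
  have hN' : (1 : ℝ) ≤ N := by exact_mod_cast hN
  have h := hy i
  have h1 := abs_le.1 (mem_Vb.1 hu i)
  have h2 : (u i : ℝ) ≤ N := by exact_mod_cast h1.2
  have h3 : -(N : ℝ) ≤ u i := by exact_mod_cast h1.1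
  unfold hd2_a at h
  rw [abs_le]
  have key : -(N : ℝ) ≤ N * y i ∧ (N : ℝ) * y i ≤ N := by
    split_ifs at h with h4
    · have h5 : (1 : ℝ) ≤ u i := by exact_mod_cast h4
      constructor <;> linarith [h.1, h.2]
    · have h5 : (u i : ℝ) ≤ 0 := by exact_mod_cast (not_lt.1 h4)
      constructor <;> linarith [h.1, h.2]
  constructor
  · nlinarith [key.1]
  · nlinarith [key.2]

theorem hd2_count {N : ℕ} (hN : 1 ≤ N) (S : Finset Site) (W : Set E3)
    (h : ∀ u ∈ S, hd2_H N (hd2_a u) ⊆ W) :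
    ENNReal.ofReal ((S.card : ℝ) * (1 / (2 * (N : ℝ))) ^ 3) ≤ volume W := by
  have h1 : volume (⋃ u ∈ S, hd2_H N (hd2_a u)) = ∑ u ∈ S, volume (hd2_H N (hd2_a u)) := by
    apply measure_biUnion_finset
    · intro u _ v _ huv
      rw [Function.onFun, Set.disjoint_left]
      intro y hy1 hy2
      exact huv ((hd2_round2 hy1).symm.trans (hd2_round2 hy2))
    · intro u _
      exact hd2_meas N hN _
  have h2 : volume (⋃ u ∈ S, hd2_H N (hd2_a u)) ≤ volume W := by
    apply measure_mono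
    intro y hy
    simp only [Set.mem_iUnion] at hy
    obtain ⟨u, hu, hy⟩ := hy
    exact h u hu hy
  rw [h1] at h2
  simp only [hd2_vol N hN, Finset.sum_const, nsmul_eq_mul] at h2
  rw [ENNReal.ofReal_mul (Nat.cast_nonneg _), ENNReal.ofReal_natCast]
  exact h2

theorem hd2_N0 (c : ℝ) (hc : 0 < c) : ∃ N₀ : ℕ, ∀ N ≥ N₀, 1 ≤ N ∧ 8 / c ≤ (N : ℝ) ∧
    (Nat.log 2 N + 1) ^ 6 ≤ ⌊c * N / 4⌋₊ := by
  have h1 : ∀ᶠ x : ℝ in atTop, ‖Real.log x ^ 6‖ ≤ (c / 8 / 729) * ‖id x‖ :=
    (Real.isLittleO_pow_log_id_atTop (n := 6)).bound (by positivity)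
  have h2 : ∀ᶠ N : ℕ in atTop, ‖Real.log (N : ℝ) ^ 6‖ ≤ (c / 8 / 729) * ‖id (N : ℝ)‖ :=
    tendsto_natCast_atTop_atTop.eventually h1
  have h3 : ∀ᶠ N : ℕ in atTop, 8 / c ≤ (N : ℝ) :=
    tendsto_natCast_atTop_atTop.eventually (eventually_ge_atTop (8 / c))
  obtain ⟨N₀, hN₀⟩ := eventually_atTop.1 (h2.and (h3.and (eventually_ge_atTop 3)))
  refine ⟨N₀, fun N hN => ?_⟩
  obtain ⟨h4, h5, h6⟩ := hN₀ N hN
  have hN0 : (0 : ℝ) < N := by
    have : 0 < N := by omega
    exact_mod_cast this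
  refine ⟨by omega, h5, ?_⟩
  have hl2 : (0.6931471803 : ℝ) < Real.log 2 := Real.log_two_gt_d9
  have hlog1 : 1 ≤ Real.log N := by
    have h7 : Real.exp 1 ≤ (3 : ℝ) := by
      have := Real.exp_one_lt_d9
      linarith
    have h8 : (3 : ℝ) ≤ N := by exact_mod_cast h6
    rw [Real.le_log_iff_exp_le hN0]
    linarith
  have h9 : ((Nat.log 2 N : ℕ) : ℝ) * Real.log 2 ≤ Real.log N := by
    rw [← Real.log_pow]
    apply Real.log_le_log (by positivity)
    have := Nat.pow_log_le_self 2 (show N ≠ 0 by omega)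
    exact_mod_cast this
  have h10 : ((Nat.log 2 N : ℕ) : ℝ) + 1 ≤ 3 * Real.log N := by
    have h0 : (0 : ℝ) ≤ ((Nat.log 2 N : ℕ) : ℝ) := Nat.cast_nonneg _
    nlinarith
  have h11 : (((Nat.log 2 N : ℕ) : ℝ) + 1) ^ 6 ≤ (3 * Real.log N) ^ 6 :=
    pow_le_pow_left₀ (by positivity) h10 6
  rw [Real.norm_of_nonneg (by positivity), id, Real.norm_of_nonneg hN0.le] at h4
  have h12 : (3 * Real.log N) ^ 6 = 729 * Real.log N ^ 6 := by ring
  apply Nat.le_floor
  push_cast
  rw [div_le_iff₀ hc] at h5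
  have h13 : (729 : ℝ) * (c / 8 / 729 * N) = c * N / 8 := by ring
  nlinarith

theorem hd2 (hZ : ZONStmt) (hT : TOPStmt) : HD2Stmt := by
  intro K hK ε δ hε hδ
  set ε1 := ε / 2 with hε1
  have hε1p : 0 < ε1 := by positivity
  obtain ⟨N₀, hN₀⟩ := hd2_N0 ε1 hε1p
  refine ⟨ENNReal.ofReal (δ * (ε1 / 8) ^ 3 / 16), ENNReal.ofReal_pos.2 (by positivity), N₀,
    fun N hN A hA hD hv p hp => ?_⟩
  obtain ⟨hN1, hN2, hN3⟩ := hN₀ N hN
  have hN0 : (0 : ℝ) < N := by exact_mod_cast hN1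
  by_contra hcon
  push Not at hcon
  obtain ⟨g, hg, rfl⟩ := Set.mem_smul_set.1 hp
  have hg' := hg
  rw [hT N A hN1] at hg'
  simp only [Set.mem_iUnion] at hg'
  obtain ⟨b, hbS, hgb⟩ := hg'
  have hbG : plaq b ⊆ Gamma N A := by
    rw [hT N A hN1]
    intro y hy
    simp only [Set.mem_iUnion]
    exact ⟨b, hbS, hy⟩
  -- the position of b
  have hlo : ∀ i, |lo b i| ≤ (N : ℤ) + 1 := by
    intro i
    rcases hbS.2.1 with h | ⟨j, h | h⟩
    · have := mem_Vb.1 h i
      omega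
    · have h1 := mem_Vb.1 h i
      have h2 := ev_le j i
      simp only [Pi.add_apply] at h1
      rw [abs_le] at *
      omega
    · have h1 := mem_Vb.1 h i
      have h2 := ev_le j i
      simp only [Pi.sub_apply] at h1
      rw [abs_le] at *
      omega
  have hgl : ∀ i, |g i - lo b i| ≤ 1 / 2 := by
    intro i
    by_cases hi : i = b.2
    · subst hi
      have h1 := hgb.1
      have h2 : g b.2 - (lo b b.2 : ℝ) = 1 / 2 := by
        rw [h1]
        change (b.1 b.2 : ℝ) + 1 / 2 - (b.1 b.2 : ℝ) = 1 / 2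
        ring
      rw [h2, abs_of_nonneg (by norm_num)]
    · exact hgb.2 i hi
  set p : E3 := (N : ℝ)⁻¹ • g with hp'
  have hpg : ∀ i, (N : ℝ) * p i = g i := by
    intro i
    change (N : ℝ) * ((N : ℝ)⁻¹ * g i) = g i
    rw [← mul_assoc, mul_inv_cancel₀ hN0.ne', one_mul]
  have hN2' : 8 ≤ ε1 * N := by
    rw [div_le_iff₀ hε1p] at hN2
    linarith
  -- ZON
  have hz1 : ∀ i, |p i| ≤ 1 + ε1 / 2 := by
    intro i
    have h1 : |g i| ≤ N + 3 / 2 := by
      have h2 : |((lo b i : ℤ) : ℝ)| ≤ (N : ℝ) + 1 := by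
        have := hlo i
        exact_mod_cast this
      have h3 := hgl i
      have h4 : g i = (g i - lo b i) + lo b i := by ring
      calc |g i| = |(g i - lo b i) + lo b i| := by rw [← h4]
        _ ≤ |g i - lo b i| + |((lo b i : ℤ) : ℝ)| := abs_add_le _ _
        _ ≤ _ := by linarith
    rw [← hpg i, abs_mul, abs_of_pos hN0] at h1
    nlinarith [abs_nonneg (p i)]
  have hz2 : ∀ y ∈ surface K, ∃ i, ε1 < |y i - p i| := by
    intro y hy
    by_contra hc
    push Not at hc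
    have h1 := hcon y hy
    have h2 : dist p y ≤ ε := by
      rw [EuclideanSpace.dist_eq]
      apply Real.sqrt_le_iff.2
      refine ⟨hε.le, ?_⟩
      have h3 : ∀ i, dist (p i) (y i) ^ 2 ≤ ε1 ^ 2 := by
        intro i
        rw [Real.dist_eq, abs_sub_comm]
        exact pow_le_pow_left₀ (abs_nonneg _) (hc i) 2
      rw [Fin.sum_univ_three]
      have := h3 0
      have := h3 1
      have := h3 2
      nlinarith
    linarith
  have hZ' := hZ K hK p ε1 hε1p hz1 hz2
  set R := ⌊ε1 * N / 4⌋₊ with hR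
  have hR1 : (R : ℝ) ≤ ε1 * N / 4 := Nat.floor_le (by positivity)
  have hR2 : ε1 * N / 4 < R + 1 := Nat.lt_floor_add_one _
  have hR3 : ε1 / 8 * N ≤ R := by linarith
  have hDD := hD b hbG (lo b) (Or.inl rfl) R hN3
  -- cells are in the cube
  have hcell : ∀ u ∈ Qb (lo b) R, ∀ y : E3, (∀ i, |(N : ℝ) * y i - u i| ≤ 1 / 2) →
      ∀ i, |y i - p i| ≤ ε1 / 2 := by
    intro u hu y hy i
    have h1 := hy i
    have h2 : |((u i : ℤ) : ℝ) - (lo b i : ℝ)| ≤ R := by
      have := mem_Qb.1 hu i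
      exact_mod_cast this
    have h3 := hgl i
    have h4 : (N : ℝ) * (y i - p i) = ((N : ℝ) * y i - u i) + ((u i : ℝ) - lo b i) -
        (g i - lo b i) := by
      rw [mul_sub, hpg i]
      ring
    have h5 : |(N : ℝ) * (y i - p i)| ≤ R + 1 := by
      rw [h4]
      rw [abs_le] at *
      constructor <;> linarith [h1.1, h1.2, h2.1, h2.2, h3.1, h3.2]
    rw [abs_mul, abs_of_pos hN0] at h5
    have h6 : (N : ℝ) * |y i - p i| ≤ N * (ε1 / 2) := by linarith
    exact le_of_mul_le_mul_left h6 hN0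
  -- the symmetric difference
  set V : Set E3 := {y | y ∈ Qc ∧ ¬ (y ∈ region N A ↔ y ∈ K)} with hV
  have hvV : volume V = vdist N A K := rfl
  -- a lower box of an outside site
  have houtside : ∀ u : Site, u ∉ Vb N → ∀ y ∈ hd2_H N (fun i => (u i : ℝ) - 1 / 2), y ∉ Qc := by
    intro u hu y hy hQ
    rw [mem_Vb] at hu
    push Not at hu
    obtain ⟨i, hi⟩ := hu
    have h1 := abs_le.1 (hQ i)
    have h2 := hy i
    have h3 : (N : ℝ) * y i ≤ N := by nlinarith [h1.2]
    have h4 : -(N : ℝ) ≤ N * y i := by nlinarith [h1.1]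
    rw [lt_abs] at hi
    rcases hi with hi | hi
    · have h5 : (N : ℝ) + 1 ≤ u i := by exact_mod_cast hi
      have h6 := h2.1
      linarith
    · have h5 : (N : ℝ) + 1 ≤ -(u i : ℝ) := by exact_mod_cast hi
      have h6 := h2.2
      linarith
  have hpos : ∀ a, 0 < volume (hd2_H N a) := by
    intro a
    rw [hd2_vol N hN1]
    exact ENNReal.ofReal_pos.2 (by positivity)
  have hlow : ∀ (u : Site) (y : E3), y ∈ hd2_H N (fun i => (u i : ℝ) - 1 / 2) →
      ∀ i, |(N : ℝ) * y i - u i| ≤ 1 / 2 := by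
    intro u y hy i
    have h2 := hy i
    rw [abs_le]
    constructor <;> linarith [h2.1, h2.2]
  -- final estimate
  have hfin : ∀ (S : Finset Site) (Z : Set E3), volume Z = 0 → δ * (R : ℝ) ^ 3 ≤ S.card →
      (∀ u ∈ S, hd2_H N (hd2_a u) ⊆ V ∪ Z) → False := by
    intro S Z hZ0 hS hSV
    have h1 := hd2_count hN1 S (V ∪ Z) hSV
    have h2 : volume (V ∪ Z) ≤ ENNReal.ofReal (δ * (ε1 / 8) ^ 3 / 16) := by
      refine (measure_union_le _ _).trans ?_
      rw [hZ0, add_zero, hvV]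
      exact hv
    have h3 := h1.trans h2
    rw [ENNReal.ofReal_le_ofReal_iff (by positivity)] at h3
    have h4 : δ * (ε1 / 8) ^ 3 / 8 ≤ (S.card : ℝ) * (1 / (2 * (N : ℝ))) ^ 3 := by
      have h5 : (ε1 / 8 * N) ^ 3 ≤ (R : ℝ) ^ 3 := pow_le_pow_left₀ (by positivity) hR3 3
      have h6 : δ * (ε1 / 8 * N) ^ 3 ≤ S.card := by
        refine le_trans ?_ hS
        exact mul_le_mul_of_nonneg_left h5 hδ.le
      have h7 : (1 / (2 * (N : ℝ))) ^ 3 = 1 / (8 * (N : ℝ) ^ 3) := by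
        rw [div_pow, one_pow, mul_pow]
        norm_num
      rw [h7]
      have h8 : (0 : ℝ) < (N : ℝ) ^ 3 := by positivity
      rw [mul_one_div, le_div_iff₀ (by positivity)]
      calc δ * (ε1 / 8) ^ 3 / 8 * (8 * (N : ℝ) ^ 3) = δ * (ε1 / 8 * N) ^ 3 := by ring
        _ ≤ _ := h6
    have h9 : 0 < δ * (ε1 / 8) ^ 3 := by positivity
    linarith
  rcases hZ' with hz | hz
  · -- the extension of K is null near p
    refine hfin ((Qb (lo b) R).filter (fun y => y ∈ below N A))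
      ({y : E3 | ∀ i, |y i - p i| ≤ ε1 / 2} ∩ extend K) hz hDD.1 ?_
    intro u hu
    rw [Finset.mem_filter] at hu
    obtain ⟨huQ, huB⟩ := hu
    have huV : u ∈ Vb N := by
      by_contra huV
      have hu2 : u 2 ≤ 0 := by
        rcases huB with h | h
        · exact absurd h.1 huV
        · exact h.2
      have hsub : hd2_H N (fun i => (u i : ℝ) - 1 / 2) ⊆
          {y : E3 | ∀ i, |y i - p i| ≤ ε1 / 2} ∩ extend K := by
        intro y hy
        refine ⟨hcell u huQ y (hlow u y hy), Or.inr ⟨houtside u huV y hy, ?_⟩⟩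
        have h1 := (hy 2).2
        have h2 : (u 2 : ℝ) ≤ 0 := by exact_mod_cast hu2
        have h3 : (N : ℝ) * y 2 < 0 := by linarith
        by_contra h4
        rw [not_le] at h4
        have := mul_pos hN0 h4
        linarith
      have h1 := measure_mono (μ := volume) hsub
      rw [hz] at h1
      exact absurd (hpos _) (not_lt.2 h1)
    intro y hy
    have hyQ := hd2_Qc hN1 huV hy
    have hyR : y ∈ region N A := ⟨hyQ, by
      rw [hd2_round2 hy]
      exact huB⟩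
    by_cases hyK : y ∈ K
    · right
      exact ⟨hcell u huQ y (fun i => (hd2_round hy i).le), Or.inl ⟨hyQ, hyK⟩⟩
    · left
      exact ⟨hyQ, fun h => hyK (h.1 hyR)⟩
  · have hD2 : δ * (R : ℝ) ^ 3 ≤
        (((Qb (lo b) R).filter (fun y => y ∈ (below N A)ᶜ)).card : ℝ) := by
      refine hDD.2.trans (le_of_eq ?_)
      unfold cnt
      congr 2
      ext y
      simp only [Finset.mem_filter]
    refine hfin ((Qb (lo b) R).filter (fun y => y ∈ (below N A)ᶜ))
      ({y : E3 | ∀ i, |y i - p i| ≤ ε1 / 2} \ extend K) hz hD2 ?_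
    intro u hu
    rw [Finset.mem_filter] at hu
    obtain ⟨huQ, huB⟩ := hu
    have huV : u ∈ Vb N := by
      by_contra huV
      have hu2 : 1 ≤ u 2 := by
        by_contra h
        exact huB (Or.inr ⟨huV, by omega⟩)
      have hsub : hd2_H N (fun i => (u i : ℝ) - 1 / 2) ⊆
          {y : E3 | ∀ i, |y i - p i| ≤ ε1 / 2} \ extend K := by
        intro y hy
        refine ⟨hcell u huQ y (hlow u y hy), ?_⟩
        rintro (⟨h, -⟩ | ⟨-, h⟩)
        · exact houtside u huV y hy h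
        · have h1 := (hy 2).1
          have h2 : (1 : ℝ) ≤ u 2 := by exact_mod_cast hu2
          have h3 : (N : ℝ) * y 2 ≤ 0 := mul_nonpos_of_nonneg_of_nonpos hN0.le h
          linarith
      have h1 := measure_mono (μ := volume) hsub
      rw [hz] at h1
      exact absurd (hpos _) (not_lt.2 h1)
    intro y hy
    have hyQ := hd2_Qc hN1 huV hy
    have hyR : y ∉ region N A := by
      rintro ⟨-, h⟩
      rw [hd2_round2 hy] at h
      exact huB h
    by_cases hyK : y ∈ K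
    · left
      exact ⟨hyQ, fun h => hyR (h.2 hyK)⟩
    · right
      refine ⟨hcell u huQ y (fun i => (hd2_round hy i).le), ?_⟩
      rintro (⟨-, h⟩ | ⟨h, -⟩)
      · exact hyK h
      · exact h hyQ

end Pool.ISH
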